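import Pool.Agent.Zk33.HF.Main1

/-!
The exact dimension of the common points in an open set, with positive probability.
-/

set_option autoImplicit false

namespace Pool.Agent.Zk11.HG.Ex

section Wt

open Pool.Agent.Zk33.HF Pool.Agent.Zk17.HF Finset

/-- discrete measures with bounded energies on a compact set of positive content, the constants
separately -/
theorem wt_content2 {s c b t R : ℝ} (hc : 0 < c) (hb : 0 ≤ b) (ht : 0 ≤ t) (h : b + t < s)
    (hR : 0 < R) {S : Set ℂ} (hSR : S ⊆ Metric.closedBall 0 R) (hcont : Content s c S) {ρ : ℝ}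
    (hρ : 0 < ρ) (_hρ1 : ρ ≤ 1) :
    Wt S b t (KE s b (2 * (2 * R + 2)) / c) (KE s (b + t) (2 * (2 * R + 2)) / c) ρ := by
  classical
  set B : ℝ := 2 * (2 * R + 2) with hB
  have hB0 : 0 < B := by positivity
  -- the level
  have hlev : ∃ k : ℕ, 2 * R + 2 ≤ 2 ^ k * ρ ∧ 2 ^ k * ρ ≤ B := by
    have hex : ∃ k : ℕ, 2 * R + 2 ≤ 2 ^ k * ρ := by
      obtain ⟨k, hk⟩ := pow_unbounded_of_one_lt ((2 * R + 2) / ρ) (by norm_num : (1 : ℝ) < 2)
      exact ⟨k, by rw [div_lt_iff₀ hρ] at hk; exact hk.le⟩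
    refine ⟨Nat.find hex, Nat.find_spec hex, ?_⟩
    rcases Nat.eq_zero_or_pos (Nat.find hex) with h0 | h0
    · rw [h0, pow_zero, one_mul]
      linarith
    · have h5 := Nat.find_min hex (Nat.sub_lt h0 one_pos)
      rw [not_le] at h5
      obtain ⟨m, hm⟩ := Nat.exists_eq_succ_of_ne_zero h0.ne'
      rw [hm, Nat.succ_eq_add_one, Nat.add_sub_cancel] at h5
      rw [hm, Nat.succ_eq_add_one, pow_succ]
      linarith
  obtain ⟨k, hk1, hk2⟩ := hlev
  have hfin := fin_cells hρ hSR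
  have hex : ∀ u : ℤ × ℤ, ∃ z : ℂ, u ∈ ix ρ '' S → z ∈ S ∧ ix ρ z = u := by
    intro u
    by_cases hu : u ∈ ix ρ '' S
    · obtain ⟨z, hz, h⟩ := hu
      exact ⟨z, fun _ => ⟨hz, h⟩⟩
    · exact ⟨0, fun h => absurd h hu⟩
  choose x hx using hex
  set V := hfin.toFinset with hV
  have hmem : ∀ u ∈ V, x u ∈ S ∧ ix ρ (x u) = u := fun u hu => hx u (hfin.mem_toFinset.1 hu)
  obtain ⟨ν, hν0, hν1, C, hC1, hC2⟩ := frostman k (fun l => (2 ^ l * ρ) ^ s) (fun l => by positivity) V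
  -- the mass
  set m : ℝ := ∑ y ∈ V, ν y with hm
  have hmc : c ≤ m := by
    refine le_trans ?_ hC2
    have h1 := hcont (C.image fun c : ℕ × (ℤ × ℤ) =>
      ((⟨((c.2.1 : ℝ) + 1 / 2) * (2 ^ c.1 * ρ), ((c.2.2 : ℝ) + 1 / 2) * (2 ^ c.1 * ρ)⟩ : ℂ), (2 : ℝ) ^ c.1 * ρ)) ?_ ?_
    · exact h1.trans (sum_image_le_sum C _ (fun p : ℂ × ℝ => |p.2| ^ s) (fun p => by positivity) |>.trans' (by
        refine le_of_eq (Finset.sum_congr rfl fun p hp => ?_)
        obtain ⟨c', _, rfl⟩ := Finset.mem_image.1 hp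
        simp only
        rw [abs_of_pos (by positivity)]) |>.trans (by
        refine le_of_eq (Finset.sum_congr rfl fun c' _ => ?_)
        simp only
        rw [abs_of_pos (by positivity)]))
    · intro p hp
      obtain ⟨c', _, rfl⟩ := Finset.mem_image.1 hp
      simp only
      positivity
    · intro z hz
      obtain ⟨c', hc', hcz⟩ := hC1 (ix ρ z) (hfin.mem_toFinset.2 ⟨z, hz, rfl⟩)
      simp only [Set.mem_iUnion, exists_prop]
      refine ⟨_, Finset.mem_image_of_mem _ hc', ?_⟩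
      simp only [Metric.mem_ball]
      have hL : (0 : ℝ) < 2 ^ c'.1 * ρ := by positivity
      have key : ∀ a : ℝ, ∀ n : ℤ, ⌊a / ρ⌋ / 2 ^ c'.1 = n → |a - ((n : ℝ) + 1 / 2) * (2 ^ c'.1 * ρ)| ≤ 1 / 2 * (2 ^ c'.1 * ρ) := by
        intro a n hn
        have h2 : (0 : ℤ) < 2 ^ c'.1 := by positivity
        have h3 : n * 2 ^ c'.1 ≤ ⌊a / ρ⌋ := by rw [← hn]; exact Int.ediv_mul_le _ h2.ne'
        have h4 : ⌊a / ρ⌋ < (n + 1) * 2 ^ c'.1 := by rw [← hn]; exact Int.lt_ediv_add_one_mul_self _ h2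
        have h5 : ((n * 2 ^ c'.1 : ℤ) : ℝ) ≤ a / ρ := Int.le_floor.1 h3
        have h6 : a / ρ < (((n + 1) * 2 ^ c'.1 : ℤ) : ℝ) := Int.floor_lt.1 h4
        rw [le_div_iff₀ hρ] at h5
        rw [div_lt_iff₀ hρ] at h6
        push_cast at h5 h6
        rw [abs_le]
        constructor <;> nlinarith
      have h3 : |z.re - ((c'.2.1 : ℝ) + 1 / 2) * (2 ^ c'.1 * ρ)| ≤ 1 / 2 * (2 ^ c'.1 * ρ) := key _ _ (congrArg Prod.fst hcz)
      have h4 : |z.im - ((c'.2.2 : ℝ) + 1 / 2) * (2 ^ c'.1 * ρ)| ≤ 1 / 2 * (2 ^ c'.1 * ρ) := key _ _ (congrArg Prod.snd hcz)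
      rw [Complex.dist_eq_re_im, Real.sqrt_lt' hL]
      have h5 := pow_le_pow_left₀ (abs_nonneg _) h3 2
      have h6 := pow_le_pow_left₀ (abs_nonneg _) h4 2
      rw [sq_abs] at h5 h6
      nlinarith [sq_nonneg (2 ^ c'.1 * ρ), pow_pos hL 2]
  have hm0 : 0 < m := lt_of_lt_of_le hc hmc
  -- the energies
  have hen : ∀ e : ℝ, 0 ≤ e → e < s → ∑ i ∈ V, ∑ j ∈ V, (ν i / m) * (ν j / m) * (max (dist (x i) (x j)) ρ) ^ (-e) ≤
      KE s e B / c := by
    intro e he hes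
    have h1 : ∀ i ∈ V, ∑ j ∈ V, (ν i / m) * (ν j / m) * (max (dist (x i) (x j)) ρ) ^ (-e) ≤
        (ν i / m) * (KE s e B / m) := by
      intro i hi
      have h2 : ∑ j ∈ V, (ν i / m) * (ν j / m) * (max (dist (x i) (x j)) ρ) ^ (-e) =
          (ν i / m) * ((∑ j ∈ V, ν j * (max (dist (x i) (x j)) ρ) ^ (-e)) / m) := by
        rw [Finset.sum_div, Finset.mul_sum]
        refine Finset.sum_congr rfl fun j _ => ?_
        ring
      rw [h2]
      refine mul_le_mul_of_nonneg_left (div_le_div_of_nonneg_right ?_ hm0.le) (div_nonneg (hν0 i) hm0.le)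
      refine (potential he hes hρ hν0 hν1 (fun u hu => (hmem u hu).2) hi ?_).trans ?_
      · intro v hv
        have h3 : ‖x i‖ ≤ R := by simpa using hSR (hmem i hi).1
        have h4 : ‖x v‖ ≤ R := by simpa using hSR (hmem v hv).1
        have h5 : dist (x i) (x v) ≤ ‖x i‖ + ‖x v‖ := dist_le_norm_add_norm _ _
        linarith
      · unfold KE
        have h6 : (2 : ℝ) ^ (-(s - e)) < 1 := Real.rpow_lt_one_of_one_lt_of_neg (by norm_num) (by linarith)
        refine mul_le_mul_of_nonneg_left (div_le_div_of_nonneg_right ?_ (by linarith)) (by positivity)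
        exact Real.rpow_le_rpow (by positivity) hk2 (by linarith)
    refine (Finset.sum_le_sum h1).trans ?_
    rw [← Finset.sum_mul, ← Finset.sum_div, ← hm, div_self hm0.ne', one_mul]
    exact div_le_div_of_nonneg_left (KE_pos hes hB0).le hc hmc
  refine ⟨V, fun u => ν u / m, x, fun i _ => div_nonneg (hν0 i) hm0.le, fun i hi => (hmem i hi).1, ?_, ?_, ?_⟩
  · rw [← Finset.sum_div, ← hm, div_self hm0.ne']
  · exact hen b hb (by linarith)
  · exact hen (b + t) (add_nonneg hb ht) h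

end Wt

section Area

open Pool.Agent.Zk33.HF MeasureTheory Metric Set

/-- the area bounds the content of a disc from below -/
theorem content_disc (z : ℂ) {r : ℝ} (hr : 0 ≤ r) : Content 2 (r ^ 2) (closedBall z r) := by
  intro s hs hcov
  have h1 : volume (closedBall z r) ≤ ∑ p ∈ s, volume (ball p.1 p.2) :=
    (measure_mono hcov).trans (measure_biUnion_finset_le _ _)
  simp only [Complex.volume_ball, Complex.volume_closedBall] at h1
  rw [← Finset.sum_mul] at h1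
  have hpi0 : (NNReal.pi : ENNReal) ≠ 0 := by
    rw [ENNReal.coe_ne_zero]
    exact NNReal.pi_ne_zero
  have h2 := (ENNReal.mul_le_mul_iff_left hpi0 ENNReal.coe_ne_top).1 h1
  have h3 : ∑ p ∈ s, ENNReal.ofReal p.2 ^ 2 = ENNReal.ofReal (∑ p ∈ s, p.2 ^ (2 : ℝ)) := by
    rw [ENNReal.ofReal_sum_of_nonneg (fun p hp => Real.rpow_nonneg (hs p hp).le _)]
    refine Finset.sum_congr rfl fun p hp => ?_
    rw [← ENNReal.ofReal_pow (hs p hp).le, Real.rpow_two]
  rw [h3, ← ENNReal.ofReal_pow hr] at h2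
  exact (ENNReal.ofReal_le_ofReal_iff
    (Finset.sum_nonneg fun p hp => Real.rpow_nonneg (hs p hp).le _)).1 h2

end Area

section Main

open H984N MeasureTheory Filter Topology Metric Set Pool.Agent.H389R2.Dim
open Pool.Agent.Zk33.HF Pool.Agent.Zk17.HF
open scoped ENNReal NNReal

/-- the measure of a limes superior -/
theorem limsup_real {Ω : Type*} [MeasurableSpace Ω] {μ : Measure Ω} [IsProbabilityMeasure μ]
    {A : ℕ → Set Ω} (hA : ∀ n, MeasurableSet (A n)) {p : ℝ} (hp : ∀ n, p ≤ μ.real (A n)) :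
    MeasurableSet (⋂ N, ⋃ n ∈ Set.Ici N, A n) ∧ p ≤ μ.real (⋂ N, ⋃ n ∈ Set.Ici N, A n) := by
  have hm : ∀ N : ℕ, MeasurableSet (⋃ n ∈ Set.Ici N, A n) := fun N =>
    MeasurableSet.biUnion (to_countable _) fun n _ => hA n
  refine ⟨MeasurableSet.iInter hm, ?_⟩
  have hanti : Antitone fun N : ℕ => ⋃ n ∈ Set.Ici N, A n := by
    intro N M hNM
    exact biUnion_subset_biUnion_left (Set.Ici_subset_Ici.2 hNM)
  have h1 : Tendsto (fun N : ℕ => μ (⋃ n ∈ Set.Ici N, A n)) atTop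
      (𝓝 (μ (⋂ N, ⋃ n ∈ Set.Ici N, A n))) :=
    tendsto_measure_iInter_atTop (fun N => (hm N).nullMeasurableSet) hanti
      ⟨0, measure_ne_top _ _⟩
  have h2 : Tendsto (fun N : ℕ => μ.real (⋃ n ∈ Set.Ici N, A n)) atTop
      (𝓝 (μ.real (⋂ N, ⋃ n ∈ Set.Ici N, A n))) :=
    (ENNReal.tendsto_toReal (measure_ne_top _ _)).comp h1
  refine ge_of_tendsto' h2 fun N => (hp N).trans (measureReal_mono ?_ (measure_ne_top _ _))
  exact subset_biUnion_of_mem (u := fun n => A n) (Set.mem_Ici.2 le_rfl)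

theorem open_exact {k : ℕ} (hk : 1 ≤ k) (hk7 : k ≤ 7) (R : Fin k → H984N.Rect) {U : Set ℂ}
    (hU : IsOpen U) (hne : U.Nonempty) (hUD : ∀ i, U ⊆ (R i).D) : ∃ p : ℝ, 0 < p ∧
    ∀ μ : Fin k → ProbabilityMeasure X, (∀ i, IsLimit (R i) (μ i)) →
    ∃ 𝒢 : Set (Fin k → X), MeasurableSet 𝒢 ∧ p ≤ (Pm μ).real 𝒢 ∧ ∀ ω ∈ 𝒢,
      (U ∩ comm ω).Nonempty ∧ ENNReal.ofReal (2 - (k : ℝ) / 4) ≤ dimH (U ∩ comm ω) := by
  obtain ⟨z0, hz0⟩ := hne
  obtain ⟨r, hr, hrU⟩ := Metric.nhds_basis_closedBall.mem_iff.1 (hU.mem_nhds hz0)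
  set S : Set ℂ := closedBall z0 r with hS
  have hSc : IsCompact S := isCompact_closedBall z0 r
  have hSD : ∀ i, S ⊆ (R i).D := fun i => hrU.trans (hUD i)
  obtain ⟨a, C, ρ0, ha, hC, hρ0, hρ1, hB⟩ := bds_prod hk R hSc hSD
  have hk0 : (0 : ℝ) ≤ (k : ℝ) / 4 := by positivity
  have hk2 : (k : ℝ) / 4 < 2 := by
    have : (k : ℝ) ≤ 7 := by exact_mod_cast hk7
    linarith
  obtain ⟨Rb, hRb⟩ := hSc.isBounded.subset_closedBall 0
  have hRb' : S ⊆ closedBall 0 (max Rb 1) :=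
    hRb.trans (closedBall_subset_closedBall (le_max_left _ _))
  have hRb0 : 0 < max Rb 1 := lt_of_lt_of_le one_pos (le_max_right Rb 1)
  have hcon : Content 2 (r ^ 2) S := content_disc z0 hr.le
  have hr2 : 0 < r ^ 2 := by positivity
  set B : ℝ := 2 * (2 * max Rb 1 + 2) with hBdef
  have hB0 : 0 < B := by positivity
  set E0 : ℝ := KE 2 ((k : ℝ) / 4) B / r ^ 2 with hE0
  have hE0p : 0 < E0 := div_pos (KE_pos hk2 hB0) hr2
  -- the exponents
  set t : ℕ → ℝ := fun n => (2 - (k : ℝ) / 4) * (1 - 1 / ((n : ℝ) + 2)) with ht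
  have hn2 : ∀ n : ℕ, 0 < 1 / ((n : ℝ) + 2) ∧ 1 / ((n : ℝ) + 2) < 1 := fun n => by
    have : (0 : ℝ) ≤ n := Nat.cast_nonneg n
    constructor
    · positivity
    · rw [div_lt_one (by linarith)]
      linarith
  have ht0 : ∀ n, 0 < t n := fun n => by
    have := hn2 n
    exact mul_pos (by linarith) (by linarith)
  have ht2 : ∀ n, (k : ℝ) / 4 + t n < 2 := fun n => by
    have h1 := hn2 n
    have h2 : (2 - (k : ℝ) / 4) * (1 - 1 / ((n : ℝ) + 2)) < (2 - (k : ℝ) / 4) * 1 :=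
      mul_lt_mul_of_pos_left (by linarith) (by linarith)
    simp only [ht]
    linarith
  have htm : Monotone t := by
    intro m n hmn
    simp only [ht]
    refine mul_le_mul_of_nonneg_left ?_ (by linarith)
    have h1 : (m : ℝ) ≤ n := by exact_mod_cast hmn
    have h2 : 1 / ((n : ℝ) + 2) ≤ 1 / ((m : ℝ) + 2) :=
      one_div_le_one_div_of_le (by positivity) (by linarith)
    linarith
  have htlim : Tendsto t atTop (𝓝 (2 - (k : ℝ) / 4)) := by
    have h1 : Tendsto (fun n : ℕ => 1 / ((n : ℝ) + 2)) atTop (𝓝 0) := by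
      refine Tendsto.div_atTop tendsto_const_nhds ?_
      exact tendsto_atTop_add_const_right _ _ tendsto_natCast_atTop_atTop
    have h2 := (tendsto_const_nhds (x := (1 : ℝ))).sub h1
    have h3 := h2.const_mul (2 - (k : ℝ) / 4)
    rw [sub_zero, mul_one] at h3
    exact h3
  set E1 : ℕ → ℝ := fun n => KE 2 ((k : ℝ) / 4 + t n) B / r ^ 2 with hE1
  have hE1p : ∀ n, 0 < E1 n := fun n => div_pos (KE_pos (ht2 n) hB0) hr2
  refine ⟨a ^ 2 / (8 * (C * E0)), by positivity, ?_⟩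
  intro μ hμ
  set c : ℕ → ℝ := fun n => 2 ^ (-(t n)) / (32 * C ^ 2 * E0 * E1 n / a ^ 4) with hcdef
  have hc : ∀ n, 0 < c n := fun n => by
    have := hE1p n
    simp only [hcdef]
    positivity
  set A : ℕ → Set (Fin k → X) := fun n => {ω | Content (t n) (c n) (S ∩ comm ω)} with hA
  have hAcl : ∀ n, IsClosed (A n) := by
    intro n
    have hcl := isClosed_content_of (t := t n) (c := c n)
      (A := fun ω : Fin k → X => NS Gs 0 S ω) fun O hO => isOpen_NS_sub Gs_cont hSc hO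
    simp only [NS_eq] at hcl
    exact hcl
  have hAp : ∀ n, a ^ 2 / (8 * (C * E0)) ≤ (Pm μ).real (A n) := by
    intro n
    have key := content_prob (μ := Pm μ) (hB μ hμ) ha hC hE0p (hE1p n) hρ0 (ht0 n).le subset_rfl
      hSc (fun ρ h0 h1 => wt_content2 hr2 hk0 (ht0 n).le (ht2 n) hRb0 hRb' hcon h0 (h1.trans hρ1))
    simp only [NS_eq] at key
    exact key
  obtain ⟨h1, h2⟩ := limsup_real (μ := Pm μ) (fun n => (hAcl n).measurableSet) hAp
  refine ⟨_, h1, h2, fun ω hω => ?_⟩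
  have hex : ∀ N, ∃ n, N ≤ n ∧ ω ∈ A n := by
    intro N
    have := mem_iInter.1 hω N
    simp only [mem_iUnion, Set.mem_Ici, exists_prop] at this
    exact this
  have hcpt : IsCompact (S ∩ comm ω) :=
    hSc.inter_right (isClosed_iInter fun i => (isCompact_range (ω i).1.continuous).isClosed)
  have hsub : S ∩ comm ω ⊆ U ∩ comm ω := inter_subset_inter_left _ hrU
  constructor
  · obtain ⟨n, _, hn⟩ := hex 0
    exact (nonempty_of_content (hc n) hn).mono hsub
  · refine le_trans ?_ (dimH_mono hsub)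
    refine le_of_tendsto' ((ENNReal.continuous_ofReal.tendsto _).comp htlim) fun N => ?_
    obtain ⟨n, hn, hn2⟩ := hex N
    exact (ENNReal.ofReal_le_ofReal (htm hn)).trans (le_dimH_of_content (ht0 n) (hc n) hcpt hn2)

end Main

end Pool.Agent.Zk11.HG.Ex
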