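import Pool.Agent.Zk33.HG.NullDefs

/-!
The intersection with one curve lowers the dimension, in which the measure is zero, by `1/4`.
-/

set_option autoImplicit false

namespace Pool.Agent.Zk11.HG

open H984N MeasureTheory Filter Topology Metric Set Pool.Agent.Zk33.HF Pool.Agent.Zk33.HG
open scoped ENNReal NNReal

/-- one cover -/
theorem null_step {μ : Measure X} [IsProbabilityMeasure μ] {K S : Set ℂ} {C ρ0 s c ε : ℝ}
    (hC : 0 ≤ C) (hhit : ∀ z ∈ K, ∀ ρ, 0 < ρ → ρ ≤ ρ0 → μ.real {ω | Gd ω z ≤ ρ} ≤ C * ρ ^ (1/4 : ℝ))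
    (hSK : S ⊆ K) (_hs : 1/4 ≤ s) (hc : 0 < c) (cov : Finset (ℂ × ℝ)) (hpos : ∀ p ∈ cov, 0 < p.2)
    (hcov : S ⊆ ⋃ p ∈ cov, ball p.1 p.2) (hsum : ∑ p ∈ cov, p.2 ^ s ≤ ε)
    (hsmall : ∀ p ∈ cov, 2 * p.2 ≤ ρ0) :
    μ {ω | Content (s - 1/4) c (S ∩ range ω.1)} ≤ ENNReal.ofReal (C * 2 ^ s * ε / c) := by
  classical
  -- the centres are moved to `S`
  set cov' := cov.filter (fun p => (S ∩ ball p.1 p.2).Nonempty) with hcov'
  have hex : ∀ p : ℂ × ℝ, ∃ z : ℂ, (S ∩ ball p.1 p.2).Nonempty → z ∈ S ∩ ball p.1 p.2 := by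
    intro p
    by_cases h : (S ∩ ball p.1 p.2).Nonempty
    · obtain ⟨z, hz⟩ := h
      exact ⟨z, fun _ => hz⟩
    · exact ⟨0, fun h' => absurd h' h⟩
  choose z hz using hex
  set A : ℂ × ℝ → Set X := fun p => {ω | Gd ω (z p) ≤ 2 * p.2} with hA
  have hAm : ∀ p, MeasurableSet (A p) := fun p =>
    (isClosed_le (Gd_cont_left (z p)) continuous_const).measurableSet
  set f : X → ℝ≥0∞ := fun ω => ∑ p ∈ cov', (A p).indicator
    (fun _ => ENNReal.ofReal ((2 * p.2) ^ (s - 1/4))) ω with hf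
  have hfm : Measurable f := by
    refine Finset.measurable_sum _ fun p _ => ?_
    exact measurable_const.indicator (hAm p)
  have hp2 : ∀ p ∈ cov', 0 < p.2 := fun p hp => hpos p (Finset.mem_filter.1 hp).1
  -- the content is bounded by `f`
  have hle : {ω : X | Content (s - 1/4) c (S ∩ range ω.1)} ⊆ {ω | ENNReal.ofReal c ≤ f ω} := by
    intro ω hω
    have hω' : Content (s - 1/4) c (S ∩ range ω.1) := hω
    set T := (cov'.filter (fun p => ω ∈ A p)).image (fun p => ((z p, 2 * p.2) : ℂ × ℝ)) with hT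
    have h1 := hω' T ?_ ?_
    · show ENNReal.ofReal c ≤ f ω
      have h2 : ∑ p ∈ T, p.2 ^ (s - 1/4) ≤
          ∑ p ∈ cov'.filter (fun p => ω ∈ A p), (2 * p.2) ^ (s - 1/4) := by
        have e1 : ∑ p ∈ T, p.2 ^ (s - 1/4) = ∑ p ∈ T, |p.2| ^ (s - 1/4) := by
          refine Finset.sum_congr rfl fun p hp => ?_
          obtain ⟨q, hq, rfl⟩ := Finset.mem_image.1 hp
          have := hp2 q (Finset.mem_filter.1 hq).1
          rw [abs_of_pos (by simp only; positivity)]
        have e2 : ∑ p ∈ cov'.filter (fun p => ω ∈ A p), (2 * p.2) ^ (s - 1/4) =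
            ∑ p ∈ cov'.filter (fun p => ω ∈ A p), |2 * p.2| ^ (s - 1/4) := by
          refine Finset.sum_congr rfl fun p hp => ?_
          have := hp2 p (Finset.mem_filter.1 hp).1
          rw [abs_of_pos (by positivity)]
        rw [e1, e2]
        exact Pool.Agent.Zk17.HF.sum_image_le_sum _ _ (fun p : ℂ × ℝ => |p.2| ^ (s - 1/4))
          fun p => by positivity
      have h3 : f ω = ENNReal.ofReal
          (∑ p ∈ cov'.filter (fun p => ω ∈ A p), (2 * p.2) ^ (s - 1/4)) := by
        rw [ENNReal.ofReal_sum_of_nonneg]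
        · have e3 : ∑ p ∈ cov'.filter (fun p => ω ∈ A p), ENNReal.ofReal ((2 * p.2) ^ (s - 1/4)) =
              ∑ p ∈ cov', if ω ∈ A p then ENNReal.ofReal ((2 * p.2) ^ (s - 1/4)) else 0 :=
            Finset.sum_filter _ _
          rw [e3]
          simp only [hf]
          refine Finset.sum_congr rfl fun p _ => ?_
          by_cases h : ω ∈ A p
          · rw [indicator_of_mem h, if_pos h]
          · rw [indicator_of_notMem h, if_neg h]
        · intro p hp
          have := hp2 p (Finset.mem_filter.1 hp).1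
          positivity
      rw [h3]
      exact ENNReal.ofReal_le_ofReal (h1.trans h2)
    · intro p hp
      obtain ⟨q, hq, rfl⟩ := Finset.mem_image.1 hp
      have := hp2 q (Finset.mem_filter.1 hq).1
      simp only
      positivity
    · rintro y ⟨hyS, hyr⟩
      obtain ⟨p, hp, hyp⟩ := mem_iUnion₂.1 (hcov hyS)
      have hp' : p ∈ cov' := Finset.mem_filter.2 ⟨hp, ⟨y, hyS, hyp⟩⟩
      have h3 := hz p ⟨y, hyS, hyp⟩
      have h4 : dist y (z p) < 2 * p.2 := by
        have := dist_triangle_right y (z p) p.1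
        have h5 := mem_ball.1 hyp
        have h6 := mem_ball.1 h3.2
        linarith
      refine mem_iUnion₂.2 ⟨(z p, 2 * p.2), Finset.mem_image.2 ⟨p, Finset.mem_filter.2 ⟨hp', ?_⟩, rfl⟩,
        mem_ball.2 h4⟩
      obtain ⟨u, hu⟩ := hyr
      show Gd ω (z p) ≤ 2 * p.2
      rw [Gd_le_iff]
      exact ⟨u, by rw [hu]; exact h4.le⟩
  -- the expectation
  have hint : ∫⁻ ω, f ω ∂μ ≤ ENNReal.ofReal (C * 2 ^ s * ε) := by
    simp only [hf]
    rw [lintegral_finsetSum _ (fun p _ => measurable_const.indicator (hAm p))]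
    have h4 : ∀ p ∈ cov', ∫⁻ ω, (A p).indicator
        (fun _ => ENNReal.ofReal ((2 * p.2) ^ (s - 1/4))) ω ∂μ ≤
          ENNReal.ofReal (C * 2 ^ s * p.2 ^ s) := by
      intro p hp
      have hp0 := hp2 p hp
      have hpc := (Finset.mem_filter.1 hp)
      have h5 := hhit (z p) (hSK (hz p hpc.2).1) (2 * p.2) (by positivity) (hsmall p hpc.1)
      rw [lintegral_indicator_const (hAm p), ← ofReal_measureReal (measure_ne_top μ _),
        ← ENNReal.ofReal_mul (by positivity)]
      refine ENNReal.ofReal_le_ofReal ?_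
      refine (mul_le_mul_of_nonneg_left h5 (by positivity)).trans (le_of_eq ?_)
      rw [← mul_assoc, mul_comm _ C, mul_assoc, ← Real.rpow_add (by positivity),
        show s - 1/4 + 1/4 = s by ring, Real.mul_rpow (by norm_num) hp0.le, mul_assoc]
    refine (Finset.sum_le_sum h4).trans ?_
    rw [← ENNReal.ofReal_sum_of_nonneg (fun p hp => by have := hp2 p hp; positivity),
      ← Finset.mul_sum]
    refine ENNReal.ofReal_le_ofReal (mul_le_mul_of_nonneg_left ?_ (by positivity))
    refine (Finset.sum_le_sum_of_subset_of_nonneg (Finset.filter_subset _ _) ?_).trans hsum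
    intro p hp _
    have := hpos p hp
    positivity
  refine (measure_mono hle).trans ?_
  refine (meas_ge_le_lintegral_div hfm.aemeasurable (by
    rw [Ne, ENNReal.ofReal_eq_zero, not_le]; exact hc) ENNReal.ofReal_ne_top).trans ?_
  rw [ENNReal.ofReal_div_of_pos hc]
  exact ENNReal.div_le_div_right hint _

theorem stN1 : StN1 := by
  intro R K hK hKD μ hμ S hSK hS s hs hnull
  obtain ⟨a, C, ρ0, ha, hC, hρ0, hρ1, hB⟩ := bds_all (k := 1) le_rfl (fun _ => R) hK fun _ => hKD
  have hB' := hB 0 μ hμ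
  have hhit : ∀ z ∈ K, ∀ ρ, 0 < ρ → ρ ≤ ρ0 →
      (μ : Measure X).real {ω | Gd ω z ≤ ρ} ≤ C * ρ ^ (1/4 : ℝ) := by
    intro z hz ρ h0 h1
    have h2 := hB'.up z hz z hz ρ h0 h1
    rw [inter_self, dist_self, max_eq_right h0.le, mul_assoc, ← Real.rpow_add h0] at h2
    rw [show (2 * (1/4) + -(1/4) : ℝ) = 1/4 by norm_num] at h2
    exact h2
  have hs0 : 0 < s := by linarith
  -- one constant
  have hone : ∀ c : ℝ, 0 < c →
      (μ : Measure X) {ω | Content (s - 1/4) c (S ∩ range ω.1)} = 0 := by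
    intro c hc
    have hlim : ∀ ε : ℝ, 0 < ε → 2 * ε ^ (1 / s) ≤ ρ0 →
        (μ : Measure X) {ω | Content (s - 1/4) c (S ∩ range ω.1)} ≤
          ENNReal.ofReal (C * 2 ^ s * ε / c) := by
      intro ε hε hε2
      have h1 := hnull ε hε
      unfold Pool.Agent.Zk33.HF.Content at h1
      push Not at h1
      obtain ⟨cov, hpos, hcov, hsum⟩ := h1
      refine null_step hC.le hhit hSK hs hc cov hpos hcov hsum.le ?_
      intro p hp
      have h2 : p.2 ^ s ≤ ε := by
        refine le_trans ?_ hsum.le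
        exact Finset.single_le_sum (f := fun p : ℂ × ℝ => p.2 ^ s)
          (fun q hq => Real.rpow_nonneg (hpos q hq).le _) hp
      have h3 : p.2 ≤ ε ^ (1 / s) := by
        have h4 := Real.rpow_le_rpow (Real.rpow_nonneg (hpos p hp).le _) h2
          (by positivity : 0 ≤ 1 / s)
        rwa [← Real.rpow_mul (hpos p hp).le, mul_one_div_cancel hs0.ne', Real.rpow_one] at h4
      linarith
    have ht1 : Tendsto (fun n : ℕ => 1 / ((n : ℝ) + 1)) atTop (𝓝 0) :=
      tendsto_one_div_add_atTop_nhds_zero_nat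
    have ht2 : Tendsto (fun n : ℕ => 2 * (1 / ((n : ℝ) + 1)) ^ (1 / s)) atTop (𝓝 0) := by
      have h1 := (ht1.rpow_const (p := 1 / s) (Or.inr (by positivity))).const_mul 2
      rwa [Real.zero_rpow (by positivity), mul_zero] at h1
    have ht3 : Tendsto (fun n : ℕ => ENNReal.ofReal (C * 2 ^ s * (1 / ((n : ℝ) + 1)) / c)) atTop
        (𝓝 0) := by
      have h1 := (ht1.const_mul (C * 2 ^ s)).div_const c
      rw [mul_zero, zero_div] at h1
      have h2 := (ENNReal.continuous_ofReal.tendsto _).comp h1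
      rwa [ENNReal.ofReal_zero] at h2
    refine le_antisymm (ge_of_tendsto ht3 ?_) zero_le
    filter_upwards [ht2.eventually_le_const hρ0] with n hn
    exact hlim _ (by positivity) hn
  have hall : ∀ᵐ ω ∂(μ : Measure X), ∀ n : ℕ,
      ¬ Content (s - 1/4) (1 / ((n : ℝ) + 1)) (S ∩ range ω.1) := by
    rw [ae_all_iff]
    intro n
    rw [ae_iff]
    simp only [not_not]
    exact hone _ (by positivity)
  filter_upwards [hall] with ω hω
  intro c hc hcon
  obtain ⟨n, hn⟩ := exists_nat_one_div_lt hc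
  exact hω n (hcon.le hn.le)

end Pool.Agent.Zk11.HG
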