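import Pool.Agent.Zk33.HG.Defs
import Pool.Agent.H12R2.Sep.Win2

/-!
Independence of the scales near the end point: from a single scale to infinitely many scales, almost
surely, for every scaling limit (module W of helper33's `Pool.Agent.Zk33.HG`).
-/

set_option autoImplicit false

namespace Pool.Agent.Zk11.HG

open H974 H984N H934F H342P H984P MeasureTheory Filter Topology Metric
open Pool.Agent.Zk33.HF Pool.Agent.H389R2.Dim Pool.Agent.Zk33.HG
open scoped ENNReal NNReal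

/-- The scales decrease. -/
theorem y_lt {y : ℕ → ℝ} (hpos : ∀ i, 0 < y i) (hdec : ∀ i, y (i + 1) ≤ y i / 20) {i j : ℕ}
    (hij : i < j) : y j ≤ y i / 20 := by
  induction j, hij using Nat.le_induction with
  | base => exact hdec i
  | succ j hj ih =>
    have h1 := hdec j
    have h2 := hpos j
    linarith

/-- Finitely many scales at mesh `δ`. -/
theorem finite_scales {R : H984N.Rect} {t p κ δ ρ : ℝ} {y : ℕ → ℝ} {S : ℕ → Set ℂ}
    (hpos : ∀ i, 0 < y i) (hdec : ∀ i, y (i + 1) ≤ y i / 20) {J : ℕ} (hδ : 0 < δ) (hρ : 0 < ρ)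
    (hρy : ∀ i < J, ρ ≤ y i / 400) (hδρ : δ ≤ ρ / 100)
    (hex : ∀ i, i < J → ∃ A : Finset Edg → Prop, (∀ F, A F ↔ A (F ∩ SR ⌊y i / δ⌋)) ∧
      SR ⌊y i / δ⌋ ⊆ (R.dm δ).edges ∧ p ≤ P (R.dm δ).edges A ∧
      ∀ F, F ⊆ (R.dm δ).edges → A F →
        Good t ρ (κ * y i ^ t) (NS Gd ρ (S i) (R.curve δ F, R.time δ F))) :
    P (R.dm δ).edges (fun F => ∀ i < J,
      ¬ Good t ρ (κ * y i ^ t) (NS Gd ρ (S i) (R.curve δ F, R.time δ F))) ≤ (1 - p) ^ J := by
  classical
  choose! A hAl hAs hAp hAg using hex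
  have hbig : ∀ i < J, 40000 ≤ y i / δ := by
    intro i hi
    rw [le_div_iff₀ hδ]
    have h1 := hρy i hi
    linarith
  have h1 : P (R.dm δ).edges (fun F => ∀ i < J,
      ¬ Good t ρ (κ * y i ^ t) (NS Gd ρ (S i) (R.curve δ F, R.time δ F))) ≤
      P (R.dm δ).edges (fun F => ∀ i < J, ¬ A i F) := by
    unfold P
    exact Pr_mono H973.okhalf fun F hF h i hi hAi => h i hi (hAg i hi F hF hAi)
  refine h1.trans ?_
  unfold P
  refine H12S.WA_prod H973.okhalf _ (fun i => ((SR ⌊y i / δ⌋ : Finset Edg) : Set Edg))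
    (fun i F => ¬ A i F) J ?_ ?_ ?_
  · intro i j hij hj
    rw [Finset.disjoint_coe]
    refine (t6_disj ?_ ?_).symm
    · have h2 := hbig j hj
      rw [Int.le_floor]
      push_cast
      linarith
    · have h2 := hbig i (hij.trans hj)
      have h3 := y_lt hpos hdec hij
      have h4 : y j / δ ≤ (y i / δ) / 20 := by
        rw [div_div, mul_comm, ← div_div]
        exact div_le_div_of_nonneg_right h3 hδ.le
      have h5 := Int.floor_le (y j / δ)
      rw [Int.le_floor]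
      push_cast
      linarith
  · intro j hj F G _ _ hFG
    have h2 : F ∩ SR ⌊y j / δ⌋ = G ∩ SR ⌊y j / δ⌋ := by
      ext e
      rw [Finset.mem_inter, Finset.mem_inter]
      constructor
      · rintro ⟨h3, h4⟩
        exact ⟨(hFG e (by exact_mod_cast h4)).1 h3, h4⟩
      · rintro ⟨h3, h4⟩
        exact ⟨(hFG e (by exact_mod_cast h4)).2 h3, h4⟩
    show ¬ A j F ↔ ¬ A j G
    rw [hAl j hj F, hAl j hj G, h2]
  · intro j hj
    rw [Pr_not]
    have h2 := hAp j hj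
    unfold P at h2
    linarith

/-- The event for the scales below `J` is open. -/
theorem isOpen_bad {t κ ρ : ℝ} {y : ℕ → ℝ} {S : ℕ → Set ℂ} (hS : ∀ i, IsCompact (S i)) (J : ℕ) :
    IsOpen {ω : X | ∀ i < J, ¬ Good t ρ (κ * y i ^ t) (NS Gd ρ (S i) ω)} := by
  have e : {ω : X | ∀ i < J, ¬ Good t ρ (κ * y i ^ t) (NS Gd ρ (S i) ω)} =
      ⋂ i ∈ Finset.range J, {ω : X | Good t ρ (κ * y i ^ t) (NS Gd ρ (S i) ω)}ᶜ := by
    ext ω
    simp only [Set.mem_ofPred_eq, Set.mem_iInter, Set.mem_compl_iff, Finset.mem_range]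
  rw [e]
  refine isOpen_biInter_finset fun i _ => isOpen_compl_iff.2 ?_
  exact isClosed_good_of fun O hO => isOpen_NS_sub Gd_cont (hS i) hO

/-- The limit of the probability at a fixed precision `ρ`. -/
theorem limit_bad {R : H984N.Rect} {t p κ ρ : ℝ} {y : ℕ → ℝ} {S : ℕ → Set ℂ}
    (hS : ∀ i, IsCompact (S i)) {J : ℕ} {δ : ℕ → ℝ} {μ : ProbabilityMeasure X}
    (hμ : Tendsto (fun i => R.law (δ i)) atTop (𝓝 μ))
    (h : ∀ᶠ n in atTop, P (R.dm (δ n)).edges (fun F => ∀ i < J,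
      ¬ Good t ρ (κ * y i ^ t) (NS Gd ρ (S i) (R.curve (δ n) F, R.time (δ n) F))) ≤
        (1 - p) ^ J) :
    (μ : Measure X) {ω : X | ∀ i < J, ¬ Good t ρ (κ * y i ^ t) (NS Gd ρ (S i) ω)} ≤
      ENNReal.ofReal ((1 - p) ^ J) := by
  have hop := isOpen_bad (t := t) (κ := κ) (ρ := ρ) (y := y) hS J
  have h1 := ProbabilityMeasure.le_liminf_measure_open_of_tendsto hμ hop
  have h4 : ∀ᶠ n in atTop, (R.law (δ n) : Measure X)
      {ω : X | ∀ i < J, ¬ Good t ρ (κ * y i ^ t) (NS Gd ρ (S i) ω)} ≤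
        ENNReal.ofReal ((1 - p) ^ J) := by
    filter_upwards [h] with n hn
    rw [R.law_apply _ hop.measurableSet]
    apply ENNReal.ofReal_le_ofReal
    exact hn
  exact h1.trans (liminf_le_of_frequently_le h4.frequently)

/-- Precision zero. -/
theorem zero_bad {t q κ : ℝ} {y : ℕ → ℝ} {S : ℕ → Set ℂ} (hpos : ∀ i, 0 < y i)
    (hdec : ∀ i, y (i + 1) ≤ y i / 20) (hS : ∀ i, IsCompact (S i)) {J : ℕ}
    {μ : ProbabilityMeasure X}
    (h : ∀ ρ : ℝ, 0 < ρ → (∀ i < J, ρ ≤ y i / 400) → (μ : Measure X)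
      {ω : X | ∀ i < J, ¬ Good t ρ (κ * y i ^ t) (NS Gd ρ (S i) ω)} ≤ ENNReal.ofReal q) :
    (μ : Measure X) {ω : X | ∀ i < J, ¬ Content t (κ * y i ^ t) (NS Gd 0 (S i) ω)} ≤
      ENNReal.ofReal q := by
  set ρ : ℕ → ℝ := fun m => y J / 400 * (1 / ((m : ℝ) + 1)) with hρdef
  have hρ0 : ∀ m, 0 < ρ m := fun m => by
    have := hpos J
    rw [hρdef]
    positivity
  have hρt : Tendsto ρ atTop (𝓝 0) := by
    have h1 := (tendsto_one_div_add_atTop_nhds_zero_nat (𝕜 := ℝ)).const_mul (y J / 400)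
    rwa [mul_zero] at h1
  have hρa : Antitone ρ := by
    intro m m' hm
    have := hpos J
    show y J / 400 * (1 / ((m' : ℝ) + 1)) ≤ y J / 400 * (1 / ((m : ℝ) + 1))
    refine mul_le_mul_of_nonneg_left ?_ (by positivity)
    refine one_div_le_one_div_of_le (by positivity) ?_
    have : (m : ℝ) ≤ m' := by exact_mod_cast hm
    linarith
  have hρy : ∀ m, ∀ i < J, ρ m ≤ y i / 400 := by
    intro m i hi
    have h1 := y_lt hpos hdec hi
    have h2 := hpos i
    have h3 := hpos J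
    have h4 : 1 / ((m : ℝ) + 1) ≤ 1 := by
      rw [div_le_one (by positivity)]
      have : (0 : ℝ) ≤ m := Nat.cast_nonneg m
      linarith
    have h5 : ρ m ≤ y J / 400 * 1 := mul_le_mul_of_nonneg_left h4 (by positivity)
    linarith
  set B : ℕ → Set X := fun m =>
    {ω : X | ∀ i < J, ¬ Good t (ρ m) (κ * y i ^ t) (NS Gd (ρ m) (S i) ω)} with hB
  have hmono : Monotone B := by
    intro m m' hm ω hω i hi hgood
    exact hω i hi (Good.anti hgood (hρa hm) (NS_mono Gd (hρa hm) (S i) ω))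
  have hsub : {ω : X | ∀ i < J, ¬ Content t (κ * y i ^ t) (NS Gd 0 (S i) ω)} ⊆ ⋃ m, B m := by
    intro ω hω
    have h1 : ∀ i, i < J → ∃ m : ℕ, ¬ Good t (ρ m) (κ * y i ^ t) (NS Gd (ρ m) (S i) ω) := by
      intro i hi
      by_contra hcon
      push Not at hcon
      exact hω i hi (content_zero Gd_cont (hS i) ω hρt hρa hcon)
    choose! m hm using h1
    refine Set.mem_iUnion.2 ⟨(Finset.range J).sup m, fun i hi hgood => hm i hi ?_⟩
    have h2 : m i ≤ (Finset.range J).sup m := Finset.le_sup (Finset.mem_range.2 hi)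
    exact Good.anti hgood (hρa h2) (NS_mono Gd (hρa h2) (S i) ω)
  refine (measure_mono hsub).trans ?_
  rw [hmono.measure_iUnion]
  exact iSup_le fun m => h (ρ m) (hρ0 m) (hρy m)

/-- Almost surely one scale is good. -/
theorem ae_exists {t p κ : ℝ} {y : ℕ → ℝ} {S : ℕ → Set ℂ} (hp : 0 < p) (hp1 : p ≤ 1)
    {μ : ProbabilityMeasure X}
    (h : ∀ J : ℕ, (μ : Measure X)
      {ω : X | ∀ i < J, ¬ Content t (κ * y i ^ t) (NS Gd 0 (S i) ω)} ≤
        ENNReal.ofReal ((1 - p) ^ J)) :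
    ∀ᵐ ω ∂(μ : Measure X), ∃ i, Content t (κ * y i ^ t) (NS Gd 0 (S i) ω) := by
  rw [ae_iff]
  refine le_antisymm ?_ (zero_le)
  have h1 : ∀ J : ℕ, (μ : Measure X)
      {ω : X | ¬ ∃ i, Content t (κ * y i ^ t) (NS Gd 0 (S i) ω)} ≤
        ENNReal.ofReal ((1 - p) ^ J) := by
    intro J
    refine le_trans (measure_mono ?_) (h J)
    intro ω hω i _ hc
    exact hω ⟨i, hc⟩
  have h2 : Tendsto (fun J : ℕ => ENNReal.ofReal ((1 - p) ^ J)) atTop (𝓝 0) := by
    have h3 := tendsto_pow_atTop_nhds_zero_of_lt_one (r := 1 - p) (by linarith) (by linarith)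
    have h4 := ENNReal.tendsto_ofReal h3
    rwa [ENNReal.ofReal_zero] at h4
  exact ge_of_tendsto' h2 h1

/-- **Module W.** -/
theorem stW : StSS → StW := by
  intro hSS s t c ht hts hc
  obtain ⟨p, κ, hp, hp1, hκ, h⟩ := hSS s t c ht hts hc
  refine ⟨κ, hκ, ?_⟩
  intro R μ hμ y S hSc
  obtain ⟨δ0, hδ0, hA⟩ := h R
  obtain ⟨δ, hδpos, hδt, hlaw⟩ := hμ
  have key : ∀ N : ℕ, ∀ᵐ ω ∂(μ : Measure X),
      ∃ i, Content t (κ * y (i + N) ^ t) (NS Gd 0 (S (i + N)) ω) := by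
    intro N
    have hpos : ∀ i, 0 < y (i + N) := fun i => hSc.pos _
    have hdec : ∀ i, y (i + 1 + N) ≤ y (i + N) / 20 := fun i => by
      have := hSc.dec (i + N)
      rwa [show i + 1 + N = i + N + 1 by ring]
    have hS : ∀ i, IsCompact (S (i + N)) := fun i => hSc.cpt _
    refine ae_exists (y := fun i => y (i + N)) (S := fun i => S (i + N)) hp hp1 fun J => ?_
    refine zero_bad (y := fun i => y (i + N)) (S := fun i => S (i + N)) hpos hdec hS ?_
    intro ρ hρ hρy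
    refine limit_bad (R := R) (y := fun i => y (i + N)) (S := fun i => S (i + N)) hS hlaw ?_
    have h1 : ∀ᶠ n in atTop, δ n < min δ0 (ρ / 100) :=
      (tendsto_order.1 hδt).2 _ (lt_min hδ0 (by positivity))
    filter_upwards [h1] with n hn
    have h2 : δ n ≤ δ0 := (hn.trans_le (min_le_left _ _)).le
    have h3 : δ n ≤ ρ / 100 := (hn.trans_le (min_le_right _ _)).le
    refine finite_scales (y := fun i => y (i + N)) (S := fun i => S (i + N)) hpos hdec (hδpos n)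
      hρ hρy h3 ?_
    intro i hi
    exact hA (y (i + N)) (hSc.pos _) (hSc.le _) (S (i + N)) (hSc.cpt _) (hSc.sub _) (hSc.con _)
      ρ hρ (hρy i hi) (δ n) (hδpos n) h2 h3
  filter_upwards [ae_all_iff.2 key] with ω hω
  rw [frequently_atTop]
  intro N
  obtain ⟨i, hi⟩ := hω N
  refine ⟨i + N, Nat.le_add_left _ _, ?_⟩
  have e : NS Gd 0 (S (i + N)) ω = S (i + N) ∩ Set.range ω.1 := by
    ext z
    show z ∈ S (i + N) ∧ Gd ω z ≤ 0 ↔ z ∈ S (i + N) ∧ z ∈ Set.range ω.1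
    rw [Gd_eq_zero_iff]
  rwa [e] at hi

end Pool.Agent.Zk11.HG
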